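import Pool.Agent.H18R3.LogProf
set_option autoImplicit false
open Complex Metric Set Filter Topology MeasureTheory
open scoped ContDiff

namespace Pool.Agent.Results.MP_056161_an.LogFreeBoundary

/-- The Laplacian of a real function on the plane `ℝ² = ℂ` (coordinates `x₁ = re`, `x₂ = im`). -/
noncomputable def laplacian (u : ℂ → ℝ) (z : ℂ) : ℝ :=
  fderiv ℝ (fun y => fderiv ℝ u y 1) z 1 + fderiv ℝ (fun y => fderiv ℝ u y I) z I

/-- The setting of the problem in the plane `ℝ² = ℂ`: `D` is a Lipschitz domain (open, connected,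
and near every boundary point it is, in rotated coordinates, the region above the graph of a
Lipschitz function), `0 ∈ ∂D`, `u ∈ C^{1,1}_loc(B₂)`, `u` is twice continuously differentiable
near almost every point of `B₂` and `Δu = x₁ χ_D` almost everywhere in `B₂`, and `u = 0` on
`B₂ \ closure D`. -/
structure IsSolution (D : Set ℂ) (u : ℂ → ℝ) : Prop where
  isOpen : IsOpen D
  isConnected : IsConnected D
  lipschitz : ∀ p ∈ frontier D, ∃ ρ : ℝ, 0 < ρ ∧ ∃ T : ℂ ≃ₗᵢ[ℝ] ℂ, ∃ f : ℝ → ℝ, ∃ K : NNReal,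
    LipschitzWith K f ∧ ∀ x ∈ ball p ρ, (x ∈ D ↔ f (T (x - p)).re < (T (x - p)).im)
  zero_mem : (0 : ℂ) ∈ frontier D
  diff : DifferentiableOn ℝ u (ball 0 2)
  grad_lipschitz : ∀ s : ℝ, s < 2 → ∃ K : NNReal, LipschitzOnWith K (fderiv ℝ u) (closedBall 0 s)
  equation : ∀ᵐ z ∂(volume.restrict (ball (0 : ℂ) 2)),
    ContDiffAt ℝ 2 u z ∧ laplacian u z = D.indicator (fun w => w.re) z
  vanish : ∀ z ∈ ball (0 : ℂ) 2, z ∉ closure D → u z = 0

/-- `∂D` is near `0`, in rotated coordinates, the graph over `(-ρ, ρ)` of a function `g` of one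
variable with the property `P ρ g`. -/
def BoundaryGraph (P : ℝ → (ℝ → ℝ) → Prop) (D : Set ℂ) : Prop :=
  ∃ ρ : ℝ, 0 < ρ ∧ ∃ T : ℂ ≃ₗᵢ[ℝ] ℂ, ∃ g : ℝ → ℝ, P ρ g ∧
    ∀ x ∈ ball (0 : ℂ) ρ, (x ∈ frontier D ↔ (T x).im = g (T x).re)

/-- `∂D` is `C¹` near `0`. -/
def BoundaryC1 (D : Set ℂ) : Prop :=
  BoundaryGraph (fun ρ g => ContDiffOn ℝ 1 g (Ioo (-ρ) ρ)) D

/-- `∂D` is `C^{1,α}` near `0`. -/
def BoundaryC1Holder (α : ℝ) (D : Set ℂ) : Prop :=
  BoundaryGraph (fun ρ g => ContDiffOn ℝ 1 g (Ioo (-ρ) ρ) ∧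
    ∃ C : ℝ, ∀ s ∈ Ioo (-ρ) ρ, ∀ t ∈ Ioo (-ρ) ρ, |deriv g s - deriv g t| ≤ C * |s - t| ^ α) D

/-- `∂D` is `C^∞` near `0`. -/
def BoundarySmooth (D : Set ℂ) : Prop :=
  BoundaryGraph (fun ρ g => ContDiffOn ℝ ∞ g (Ioo (-ρ) ρ)) D

/-- `∂D` is real-analytic near `0`. -/
def BoundaryAnalytic (D : Set ℂ) : Prop :=
  BoundaryGraph (fun ρ g => AnalyticOnNhd ℝ g (Ioo (-ρ) ρ)) D

open Pool.Agent.H18R3

theorem sol : IsSolution DD Ut where
  isOpen := isOpen_DD
  isConnected := by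
    refine ⟨⟨1, ?_⟩, ?_⟩
    · change ff (1 : ℂ).im < (1 : ℂ).re
      simp [ff_zero]
    · have : DD = (fun p : ℝ × ℝ => ((ff p.1 + p.2 : ℝ) : ℂ) + p.1 * I) ''
          (univ ×ˢ Ioi (0 : ℝ)) := by
        ext z
        constructor
        · intro h
          have h1 : ff z.im < z.re := h
          refine ⟨(z.im, z.re - ff z.im), ⟨trivial, sub_pos.2 h1⟩, ?_⟩
          simp only [add_sub_cancel]
          exact Complex.re_add_im z
        · rintro ⟨⟨t, l⟩, ⟨-, hl⟩, rfl⟩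
          have hl' : 0 < l := hl
          change ff _ < _
          simp
          exact hl'
      rw [this]
      apply IsPreconnected.image
      · exact isPreconnected_univ.prod isPreconnected_Ioi
      · have := ff_continuous
        fun_prop
  lipschitz := by
    intro p _
    refine ⟨1, one_pos, rotation (Circle.exp (Real.pi / 2)),
      fun s => ff (p.im - s) - p.re, 1, ?_, ?_⟩
    · apply LipschitzWith.of_dist_le_mul
      intro s t
      have := ff_lip.dist_le_mul (p.im - s) (p.im - t)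
      rw [Real.dist_eq, Real.dist_eq, NNReal.coe_one, one_mul] at this ⊢
      have e : ff (p.im - s) - p.re - (ff (p.im - t) - p.re) = ff (p.im - s) - ff (p.im - t) := by
        ring
      rw [e]
      refine this.trans (le_of_eq ?_)
      rw [show p.im - s - (p.im - t) = -(s - t) by ring, abs_neg]
    · intro x _
      have e : rotation (Circle.exp (Real.pi / 2)) (x - p) = I * (x - p) := by
        rw [rotation_apply, Circle.coe_exp]
        congr 1
        push_cast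
        rw [Complex.exp_mul_I, Complex.cos_pi_div_two, Complex.sin_pi_div_two]; ring
      rw [e]
      have e1 : (I * (x - p)).re = -(x - p).im := by simp
      have e2 : (I * (x - p)).im = (x - p).re := by simp
      rw [e1, e2]
      simp only [Complex.sub_im, Complex.sub_re, sub_neg_eq_add, add_sub_cancel]
      change ff x.im < x.re ↔ _
      constructor <;> intro h <;> linarith
  zero_mem := by
    rw [frontier_DD]
    change (0 : ℂ).re = ff (0 : ℂ).im
    simp [ff_zero]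
  diff := fun z hz => (hasFDerivAt_Ut (ball_subset_BB hz)).differentiableAt.differentiableWithinAt
  grad_lipschitz := by
    intro s hs
    refine ⟨4, fderiv_Ut_lip.mono ?_⟩
    exact (closedBall_subset_ball hs).trans ball_subset_BB
  equation := by
    have h : ∀ᵐ z ∂(volume.restrict (ball (0 : ℂ) 2)), z ∉ frontier DD := by
      apply ae_restrict_of_ae
      exact measure_eq_zero_iff_ae_notMem.1 frontier_null
    have h2 : ∀ᵐ z ∂(volume.restrict (ball (0 : ℂ) 2)), z ∈ ball (0 : ℂ) 2 :=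
      ae_restrict_mem measurableSet_ball
    filter_upwards [h, h2] with z hz hzb
    have hB := ball_subset_BB hzb
    by_cases hD : z ∈ DD
    · refine ⟨contDiffAt_Ut ⟨hD, hB⟩, ?_⟩
      rw [indicator_of_mem hD]
      exact lap_Ut ⟨hD, hB⟩
    · have hcl : z ∉ closure DD := fun h3 => hz (by
        rw [isOpen_DD.frontier_eq]; exact ⟨h3, hD⟩)
      have hev : Ut =ᶠ[𝓝 z] fun _ => 0 := by
        filter_upwards [isClosed_closure.isOpen_compl.mem_nhds hcl] with y hy
        have : y ∉ DD := fun h => hy (subset_closure h)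
        simp [Ut, this]
      refine ⟨contDiffAt_const.congr_of_eventuallyEq hev, ?_⟩
      rw [indicator_of_notMem hD]
      exact lap_zero hev
  vanish := by
    intro z _ hz
    have : z ∉ DD := fun h => hz (subset_closure h)
    simp [Ut, this]

theorem c1 : BoundaryC1 DD := by
  refine ⟨3, by norm_num, rotation (Circle.exp (Real.pi / 2)), ff, contDiffOn_ff, ?_⟩
  intro x _
  have e : rotation (Circle.exp (Real.pi / 2)) x = I * x := by
    rw [rotation_apply, Circle.coe_exp]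
    congr 1
    push_cast
    rw [Complex.exp_mul_I, Complex.cos_pi_div_two, Complex.sin_pi_div_two]; ring
  rw [e, frontier_DD]
  have e1 : (I * x).re = -x.im := by simp
  have e2 : (I * x).im = x.re := by simp
  rw [e1, e2, ff_even]
  rfl

/-- first order Taylor estimate from a Hoelder derivative -/
theorem taylor {ρ α C : ℝ} (hρ : 0 < ρ) {g : ℝ → ℝ} (hα : 0 < α)
    (hg : ContDiffOn ℝ 1 g (Ioo (-ρ) ρ))
    (hC : ∀ s ∈ Ioo (-ρ) ρ, ∀ t ∈ Ioo (-ρ) ρ, |deriv g s - deriv g t| ≤ C * |s - t| ^ α)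
    {t : ℝ} (ht : t ∈ Ioo (-ρ) ρ) : |g t - g 0 - deriv g 0 * t| ≤ C * |t| ^ (1 + α) := by
  have h0 : (0 : ℝ) ∈ Ioo (-ρ) ρ := ⟨by linarith, hρ⟩
  have hC0 : 0 ≤ C := by
    have h1 := hC (ρ / 2) ⟨by linarith, by linarith⟩ 0 h0
    have h2 : 0 ≤ C * |ρ / 2 - 0| ^ α := (abs_nonneg _).trans h1
    have h3 : 0 < |ρ / 2 - 0| ^ α := by
      apply Real.rpow_pos_of_pos
      rw [sub_zero]; exact abs_pos.2 (by positivity)
    exact nonneg_of_mul_nonneg_left h2 h3
  have hd : ∀ x ∈ Ioo (-ρ) ρ, DifferentiableAt ℝ g x := fun x hx =>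
    (hg.differentiableOn (by norm_num)).differentiableAt (isOpen_Ioo.mem_nhds hx)
  have hsub : ∀ x ∈ segment ℝ 0 t, x ∈ Ioo (-ρ) ρ ∧ |x| ≤ |t| := by
    intro x hx
    refine ⟨(convex_Ioo _ _).segment_subset h0 ht hx, ?_⟩
    rw [segment_eq_image'] at hx
    obtain ⟨s, hs, rfl⟩ := hx
    simp only [sub_zero, smul_eq_mul, zero_add, abs_mul]
    rw [abs_of_nonneg hs.1]
    nlinarith [abs_nonneg t, hs.2]
  have key := Convex.norm_image_sub_le_of_norm_hasDerivWithin_le (𝕜 := ℝ)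
    (f := fun x => g x - deriv g 0 * x) (f' := fun x => deriv g x - deriv g 0)
    (s := segment ℝ 0 t) (C := C * |t| ^ α) (x := 0) (y := t)
    (fun x hx => by
      have h1 := ((hd x (hsub x hx).1).hasDerivAt.sub
        ((hasDerivAt_id x).const_mul (deriv g 0)))
      rw [mul_one] at h1
      exact h1.hasDerivWithinAt)
    (fun x hx => by
      have h1 := hC x (hsub x hx).1 0 h0
      rw [sub_zero] at h1
      rw [Real.norm_eq_abs]
      refine h1.trans (mul_le_mul_of_nonneg_left ?_ hC0)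
      exact Real.rpow_le_rpow (abs_nonneg _) (hsub x hx).2 hα.le)
    (convex_segment 0 t) (left_mem_segment ℝ 0 t) (right_mem_segment ℝ 0 t)
  simp only [mul_zero, sub_zero, Real.norm_eq_abs] at key
  have e : g t - deriv g 0 * t - g 0 = g t - g 0 - deriv g 0 * t := by ring
  rw [e] at key
  refine key.trans (le_of_eq ?_)
  rw [add_comm, Real.rpow_add_one' (abs_nonneg _) (by linarith), mul_assoc]

theorem not_holder {α : ℝ} (hα : 0 < α) : ¬ BoundaryC1Holder α DD := by
  rintro ⟨ρ, hρ, T, g, ⟨hg, C, hC⟩, hfr⟩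
  have hzero : g 0 = 0 := by
    have h1 := (hfr 0 (mem_ball_self hρ)).1 (by
      rw [frontier_DD]; change (0 : ℂ).re = ff (0 : ℂ).im; simp [ff_zero])
    rw [map_zero] at h1
    exact h1.symm
  have hC0 : 0 ≤ C := by
    have h1 := hC (ρ / 2) ⟨by linarith, by linarith⟩ 0 ⟨by linarith, hρ⟩
    have h2 : 0 ≤ C * |ρ / 2 - 0| ^ α := (abs_nonneg _).trans h1
    have h3 : 0 < |ρ / 2 - 0| ^ α := by
      apply Real.rpow_pos_of_pos
      rw [sub_zero]; exact abs_pos.2 (by positivity)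
    exact nonneg_of_mul_nonneg_left h2 h3
  -- the linear functional
  set m := deriv g 0 with hm
  set ell : ℂ → ℝ := fun z => (T z).im - m * (T z).re with hell
  have hlin : ∀ a b : ℝ, ell (a + b * I) = a * ell 1 + b * ell I := by
    intro a b
    have e : (a : ℂ) + b * I = a • (1 : ℂ) + b • I := by simp
    simp only [hell]
    rw [e, map_add, map_smul, map_smul]
    simp
    ring
  have hest : ∀ᶠ t in 𝓝[>] (0 : ℝ), |ff t * ell 1 + t * ell I| ≤
      C * (2 : ℝ) ^ (1 + α) * t ^ (1 + α) := by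
    filter_upwards [Ioo_mem_nhdsGT (show (0 : ℝ) < ρ / 2 by positivity)] with t ht
    set z : ℂ := (ff t : ℂ) + t * I with hz
    have hzr : z.re = ff t := by simp [hz]
    have hzi : z.im = t := by simp [hz]
    have hnorm : ‖z‖ ≤ 2 * t := by
      refine (Complex.norm_le_abs_re_add_abs_im z).trans ?_
      rw [hzr, hzi, abs_of_nonneg (ff_nonneg t), abs_of_pos ht.1]
      have := ff_le t
      rw [abs_of_pos ht.1] at this
      linarith
    have hb : z ∈ ball (0 : ℂ) ρ := by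
      rw [mem_ball_zero_iff]; linarith [ht.2]
    have h1 := (hfr z hb).1 (by
      rw [frontier_DD]; change z.re = ff z.im; rw [hzr, hzi])
    have hTn : ‖T z‖ = ‖z‖ := T.norm_map z
    have hre : |(T z).re| ≤ ‖z‖ := by
      rw [← hTn]; exact Complex.abs_re_le_norm _
    have hmem : (T z).re ∈ Ioo (-ρ) ρ :=
      abs_lt.1 (lt_of_le_of_lt hre (by simpa using hb))
    have h2 := taylor hρ hα hg hC hmem
    rw [hzero, sub_zero, ← h1] at h2
    have h3 : (T z).im - m * (T z).re = ff t * ell 1 + t * ell I := hlin (ff t) t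
    rw [h3] at h2
    refine h2.trans ?_
    rw [mul_assoc, ← Real.mul_rpow (by norm_num) ht.1.le]
    apply mul_le_mul_of_nonneg_left _ hC0
    apply Real.rpow_le_rpow (abs_nonneg _) (hre.trans hnorm) (by linarith)
  -- `ff t / t → 0`
  have hder : Tendsto (fun t => ff t / t) (𝓝[>] 0) (𝓝 0) := by
    have h1 := hasDerivAt_ff (t := 0) (by norm_num)
    rw [dff_zero, hasDerivAt_iff_tendsto_slope] at h1
    have h2 := h1.mono_left (nhdsWithin_mono 0 (show Ioi (0 : ℝ) ⊆ {0}ᶜ from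
      fun x hx => ne_of_gt hx))
    apply h2.congr
    intro t
    rw [slope_def_field, ff_zero, sub_zero, sub_zero]
  have hI : ell I = 0 := by
    have h1 : Tendsto (fun t => |ff t / t * ell 1 + ell I|) (𝓝[>] 0) (𝓝 |0 * ell 1 + ell I|) :=
      ((hder.mul_const _).add_const _).abs
    rw [zero_mul, zero_add] at h1
    have h2 : Tendsto (fun t : ℝ => C * (2 : ℝ) ^ (1 + α) * t ^ α) (𝓝[>] 0) (𝓝 0) := by
      have h3 : ContinuousAt (fun t : ℝ => t ^ α) 0 :=
        Real.continuousAt_rpow_const _ _ (Or.inr hα.le)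
      have h4 := (h3.tendsto.mono_left (nhdsWithin_le_nhds (s := Ioi 0))).const_mul
        (C * (2 : ℝ) ^ (1 + α))
      rwa [Real.zero_rpow hα.ne', mul_zero] at h4
    have h3 : |ell I| ≤ 0 := by
      apply le_of_tendsto_of_tendsto h1 h2
      filter_upwards [hest, self_mem_nhdsWithin] with t ht ht0
      have ht0' : (0 : ℝ) < t := ht0
      have e1 : ff t / t * ell 1 + ell I = (ff t * ell 1 + t * ell I) / t := by
        field_simp
      rw [e1, abs_div, abs_of_pos ht0', div_le_iff₀ ht0']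
      refine ht.trans (le_of_eq ?_)
      rw [Real.rpow_add ht0', Real.rpow_one]; ring
    exact abs_eq_zero.1 (le_antisymm h3 (abs_nonneg _))
  have h1ne : ell 1 ≠ 0 := by
    intro h
    have h2 : ∀ z : ℂ, ell z = 0 := by
      intro z
      rw [← Complex.re_add_im z, hlin, h, hI]; ring
    have h3 := h2 (T.symm I)
    simp only [hell, LinearIsometryEquiv.apply_symm_apply] at h3
    simp at h3
  apply ff_lower (C := C * (2 : ℝ) ^ (1 + α) / |ell 1|) hα
  filter_upwards [hest, self_mem_nhdsWithin] with t ht ht0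
  rw [hI, mul_zero, add_zero, abs_mul, abs_of_nonneg (ff_nonneg t)] at ht
  have hpos : 0 < |ell 1| := abs_pos.2 h1ne
  rw [div_mul_eq_mul_div, le_div_iff₀ hpos]
  exact ht

theorem holder_of_contDiff {ρ : ℝ} (hρ : 0 < ρ) {g : ℝ → ℝ} (hg : ContDiffOn ℝ 2 g (Ioo (-ρ) ρ)) :
    ContDiffOn ℝ 1 g (Ioo (-(ρ / 2)) (ρ / 2)) ∧ ∃ C : ℝ, ∀ s ∈ Ioo (-(ρ / 2)) (ρ / 2),
      ∀ t ∈ Ioo (-(ρ / 2)) (ρ / 2), |deriv g s - deriv g t| ≤ C * |s - t| ^ (1 / 2 : ℝ) := by
  have hsub : Ioo (-(ρ / 2)) (ρ / 2) ⊆ Ioo (-ρ) ρ := Ioo_subset_Ioo (by linarith) (by linarith)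
  have hsub2 : Icc (-(ρ / 2)) (ρ / 2) ⊆ Ioo (-ρ) ρ := fun x hx =>
    ⟨by linarith [hx.1], by linarith [hx.2]⟩
  refine ⟨(hg.of_le (by norm_num)).mono hsub, ?_⟩
  have h1 : ContDiffOn ℝ 1 (deriv g) (Ioo (-ρ) ρ) := by
    have h2 : ContDiffOn ℝ (1 + 1) g (Ioo (-ρ) ρ) := by
      convert hg using 1
      norm_num
    exact ((contDiffOn_succ_iff_deriv_of_isOpen isOpen_Ioo).1 h2).2.2
  have h3 : ContinuousOn (deriv (deriv g)) (Icc (-(ρ / 2)) (ρ / 2)) := by
    have h2 : ContDiffOn ℝ (0 + 1) (deriv g) (Ioo (-ρ) ρ) := by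
      convert h1 using 1
      norm_num
    have h4 := ((contDiffOn_succ_iff_deriv_of_isOpen isOpen_Ioo).1 h2).2.2
    exact h4.continuousOn.mono hsub2
  obtain ⟨M, hM⟩ := isCompact_Icc.exists_bound_of_continuousOn h3
  have hM0 : 0 ≤ M := (norm_nonneg _).trans (hM 0 ⟨by linarith, by linarith⟩)
  refine ⟨M * ρ ^ (1 / 2 : ℝ), fun s hs t ht => ?_⟩
  have hlip := Convex.norm_image_sub_le_of_norm_deriv_le (𝕜 := ℝ) (f := deriv g)
    (s := Icc (-(ρ / 2)) (ρ / 2)) (C := M) (x := t) (y := s)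
    (fun x hx => (h1.differentiableOn (by norm_num)).differentiableAt
      (isOpen_Ioo.mem_nhds (hsub2 hx))) hM (convex_Icc _ _) ⟨ht.1.le, ht.2.le⟩ ⟨hs.1.le, hs.2.le⟩
  rw [Real.norm_eq_abs, Real.norm_eq_abs] at hlip
  refine hlip.trans ?_
  rw [mul_assoc]
  apply mul_le_mul_of_nonneg_left _ hM0
  have hd : |s - t| ≤ ρ := by
    rw [abs_le]; constructor <;> linarith [hs.1, hs.2, ht.1, ht.2]
  calc |s - t| = |s - t| ^ (1 / 2 : ℝ) * |s - t| ^ (1 / 2 : ℝ) := by
        rw [← Real.rpow_add_of_nonneg (abs_nonneg _) (by norm_num) (by norm_num)]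
        norm_num
    _ ≤ ρ ^ (1 / 2 : ℝ) * |s - t| ^ (1 / 2 : ℝ) := by
        apply mul_le_mul_of_nonneg_right _ (Real.rpow_nonneg (abs_nonneg _) _)
        exact Real.rpow_le_rpow (abs_nonneg _) hd (by norm_num)

theorem not_c2 {P : ℝ → (ℝ → ℝ) → Prop}
    (hP : ∀ ρ g, P ρ g → ContDiffOn ℝ 2 g (Ioo (-ρ) ρ)) : ¬ BoundaryGraph P DD := by
  rintro ⟨ρ, hρ, T, g, hPg, hfr⟩
  apply not_holder (α := 1 / 2) (by norm_num)
  refine ⟨ρ / 2, by positivity, T, g, holder_of_contDiff hρ (hP ρ g hPg), ?_⟩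
  intro x hx
  exact hfr x (ball_subset_ball (by linarith) hx)

/-- Negative answer to Q1 (a), (b) and (c): there are a Lipschitz domain `D` with `0 ∈ ∂D` and
`u ∈ C^{1,1}_loc(B₂)` with `Δu = x₁ χ_D` and `u = 0` on `B₂ \ closure D`, such that `∂D` is `C¹`
near `0` but not `C^{1,α}` near `0` for any `α > 0`, hence neither `C^∞` nor real-analytic. -/
theorem result : ∃ (D : Set ℂ) (u : ℂ → ℝ), IsSolution D u ∧ BoundaryC1 D ∧
    (∀ α : ℝ, 0 < α → ¬ BoundaryC1Holder α D) ∧ ¬ BoundarySmooth D ∧ ¬ BoundaryAnalytic D := by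
  refine ⟨DD, Ut, sol, c1, fun α hα => not_holder hα, ?_, ?_⟩
  · apply not_c2
    intro ρ g hg
    exact_mod_cast contDiffOn_infty.1 hg 2
  · apply not_c2
    intro ρ g hg
    exact hg.contDiffOn (isOpen_Ioo.uniqueDiffOn)

end Pool.Agent.Results.MP_056161_an.LogFreeBoundary
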